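import Pool.Agent.U365.POW.E
import Pool.Agent.Results.MP_a247fa_nt.MultiplicativeValues

/-!
# The critical points of Chamberland's map near `s(l)`, `l - φ(l)` and `α l + β g(l)`

`f` is Chamberland's real extension of the Collatz map and `J n = [n, n + 5/(6(2n+1))]`, which for odd `n` contains the critical
point of `f` in `(n, n + 1/2)`. Let `s(l)` be the sum of the proper divisors of `l`, let `G` be any function with steps bounded
below by a positive constant and growth at most `v ^ d`, for example `G v = v`, `0 < δ ≤ 1`, `κ ≥ 0` and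
`e = d (1 - 0.06 δ) + κ < 1`. For almost all `l` with a divisor `≥ l ^ (e + ρ)` which is a prime or the product of two different
primes, and hence for a set of `l` of lower density at least `1 - e`, for EVERY `n` with `|n - G (s(l))| ≤ s(l) ^ κ` an iterate of
`f` maps `J n` into `J m` for some `m ≤ n ^ δ`, and the same holds for `l - φ(l)`. So all the critical points above the odd numbers
`n` of these windows fall to size `n ^ δ`, and all attracting cycles of `f` which attract one of them attract a point of `J m`,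
`m ≤ n ^ δ`. The same is proved for the values `α l + β g(l)` of multiplicative functions with `g p = p + c` at the primes, uniformly
in `|α|, |β| ≤ N ^ δ'` and with a power saving in the number of the exceptional `l`.

Proof. The exceptional set has `O(X ^ (1 - 0.06 δ))` elements up to `X` (starting file `MultiplicativeValues`). Let `l = k v p` with
large primes `p ≠ v`. Then `w = α l + β g(l) = A v p + B (v + p) + B c`, `A = α k + β g(k)`, `B = β c g(k)`, and so
`(A v + B) (A p + B) = A w + B² - A B c`: for given `w`, `k`, `α`, `β` there are only `N^o(1)` possibilities for `p` and `v`.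
-/

set_option autoImplicit false

namespace Pool.Agent.Results.MP_a247fa_nt.AliquotValues

open Pool.Agent.H934R2.Ch
open Pool.Agent.U365.POW (Values Dens values_good_nat values_mono dens_mono)
open Pool.Agent.N733.TG (Expanding)
open Pool.Agent.Results.MP_a247fa_nt.MultiplicativeValues (J Low Bad bad_fin count carry)

/-- For EVERY `n ≥ 1` with `|n - G g| ≤ g ^ κ` an iterate of Chamberland's map `f` maps `J n` into `J m` for some `m ≤ n ^ δ`. -/
def Near (δ : ℝ) (G : ℕ → ℝ) (κ : ℝ) (g : ℕ) : Prop :=
  ∀ n : ℕ, 1 ≤ n → |(n : ℝ) - G g| ≤ (g : ℝ) ^ κ → Low δ n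

/-- **Theorem.** Let `G` have steps `≥ a > 0` and growth at most `v^d`, `0 < δ ≤ 1`, `κ ≥ 0` and `e = d (1 - 0.06 δ) + κ < 1`. For
every `ρ > 0` the property `Near` holds for the values of similar functions as the aliquot sum (`Values`: for `s(l)`, for
`l - φ(l)` and for all `α l + β g(l)`, for almost all the `l` with a divisor `≥ l ^ (e + ρ)` which is a prime or the product of two
different primes), and it holds for `s(l)` and `l - φ(l)` for a set of `l` of lower density at least `1 - e`. -/
theorem result : ∀ (G : ℕ → ℝ) (d : ℝ), Expanding G d → ∀ δ κ : ℝ, 0 < δ → δ ≤ 1 →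
      0 ≤ κ → d * (1 - 6 / 100 * δ) + κ < 1 →
    (∀ ρ : ℝ, 0 < ρ → Values (d * (1 - 6 / 100 * δ) + κ + ρ) (Near δ G κ)) ∧
      Dens (1 - (d * (1 - 6 / 100 * δ) + κ)) (Near δ G κ) := by
  intro G d hG δ κ hδ hδ1 hκ h1
  obtain ⟨K, hK⟩ := count hδ hδ1
  obtain ⟨a, b⟩ := values_good_nat (fun _ => True) (Low δ) hG (s := 1 - 6 / 100 * δ) (κ := κ)
      (by linarith) hκ h1 (fun ε hε => by
        refine ⟨|K|, fun X hX => ?_⟩
        have hX1 : (1 : ℝ) ≤ X := by exact_mod_cast hX
        have hsub : {t : ℕ | 1 ≤ t ∧ t ≤ X ∧ True ∧ ¬ Low δ t} ⊆ Bad δ X := by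
          rintro t ⟨h2, h3, -, h4⟩
          refine ⟨h2, by exact_mod_cast h3, fun k => ?_⟩
          by_contra hk
          exact h4 ⟨T^[k] t, k, T_iter_pos h2 k, not_lt.1 hk, carry h2 k⟩
        have h5 : (({t : ℕ | 1 ≤ t ∧ t ≤ X ∧ True ∧ ¬ Low δ t}.ncard : ℕ) : ℝ)
            ≤ ((Bad δ X).ncard : ℝ) := by
          exact_mod_cast Set.ncard_le_ncard hsub (bad_fin δ X)
        refine h5.trans ((hK X hX1).trans ?_)
        have h2 : (X : ℝ) ^ (1 - 6 / 100 * δ) ≤ (X : ℝ) ^ (1 - 6 / 100 * δ + ε) :=
          Real.rpow_le_rpow_of_exponent_le hX1 (by linarith)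
        have h3 : 0 ≤ (X : ℝ) ^ (1 - 6 / 100 * δ) := Real.rpow_nonneg (by linarith) _
        calc K * (X : ℝ) ^ (1 - 6 / 100 * δ) ≤ |K| * (X : ℝ) ^ (1 - 6 / 100 * δ) :=
              mul_le_mul_of_nonneg_right (le_abs_self K) h3
          _ ≤ |K| * (X : ℝ) ^ (1 - 6 / 100 * δ + ε) :=
              mul_le_mul_of_nonneg_left h2 (abs_nonneg K))
  have hm : ∀ g : ℕ, (∀ n : ℕ, 1 ≤ n → True → |(n : ℝ) - G g| ≤ (g : ℝ) ^ κ → Low δ n) → Near δ G κ g :=
    fun g hg n hn hw => hg n hn trivial hw
  exact ⟨fun ρ hρ => values_mono (a ρ hρ) hm, dens_mono b le_rfl hm⟩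

end Pool.Agent.Results.MP_a247fa_nt.AliquotValues
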