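import Pool.Agent.U339.CH.Iter
import Pool.Agent.U339.CH.Two

/-!
# Chamberland's map: the basins are intermingled at all polynomial scales

Let `f` be Chamberland's real extension of the `3x+1` map and let `B` be a measurable set which is
completely invariant under `f` on `(0,∞)`, for example the basin of an attracting cycle, the union of some
basins, or the set of the points with unbounded orbit. By the starting files `BasinDensities`,
`BasinPowerRate` there is a number `D` such that the measure of `B ∩ [m, m+1)` is `D + O(m^(-1/2000))`. We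
determine how `B` is distributed inside the unit intervals.

1. Every interval `(a, b)` contained in `[m, m+1]` satisfies
   `|measure (B ∩ (a, b)) - D (b - a)| ≤ 7 * 10^7 / m^(1/2000)`.
2. Microscopic equidistribution. For every `A` there is a constant `C`, the same for all `B`, such that for
   all `m ≥ 1` the following holds for all `x` in `[m, m+1)` outside a set of measure at most `C / m^(1/6)`:
   for ALL intervals `(a, b)` which contain `x` and have a length between `m^(-A)` and `1` the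
   proportion of `B` in `(a, b)` is `D` up to an error of at most `C / m^(1/2000)`.
3. The basin of every attracting cycle has `0 < D < 1` (there are at least two such cycles). So for every
   finite set of attracting cycles there is `c > 0` such that for every `A` and all large `m`, for all `x` in
   `[m, m+1)` outside a set of measure `O(m^(-1/6))`, in EVERY interval of length between `m^(-A)` and `1`
   which contains `x` EACH of the basins has a proportion between `c` and `1 - c`. In particular the two known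
   basins are intermingled at all polynomial scales, and if there is a further attracting cycle, its basin
   is found in all these intervals, too.

Proof of 2. If `(a, b)` is long the proportion is `D` by 1. Otherwise `f` maps `(a, b)` with small
distortion onto an interval which is longer by a factor of at least `m^(2/3)`, unless `x` is near an
integer. By induction the union of the bad intervals is, up to a set of measure `O(m^(-1/6))`, contained in
the preimage of the corresponding union for `[k, k+1)`, `k ≥ m/2`, and the preimages are controlled by the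
transition operator of the library (`Pool.Agent.W40.Ch`).
-/

set_option autoImplicit false

namespace Pool.Agent.Results.MP_a247fa_nt.BasinsAtAllScales

open Filter Topology MeasureTheory

/-- Chamberland's map. -/
noncomputable def f (x : ℝ) : ℝ := x + 1 / 4 - (2 * x + 1) / 4 * Real.cos (Real.pi * x)

/-- Measurable sets that are completely invariant under `f` on `(0,∞)`. -/
def Invariant (B : Set ℝ) : Prop := MeasurableSet B ∧ ∀ x : ℝ, 0 < x → (x ∈ B ↔ f x ∈ B)

/-- The measure of `B ∩ [m, m+1)` tends to `D` as the integer `m` tends to infinity. -/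
def Fills (B : Set ℝ) (D : ℝ) : Prop :=
  Tendsto (fun m : ℕ => (volume (B ∩ Set.Ico (m : ℝ) (m + 1))).toReal) atTop (𝓝 D)

/-- The difference between the measure of `B ∩ (a, b)` and `D (b - a)`, in absolute value. -/
noncomputable def deviation (B : Set ℝ) (D a b : ℝ) : ℝ :=
  |(volume (B ∩ Set.Ioo a b)).toReal - D * (b - a)|

/-- The points `x` of `[m, m+1)` which lie in an interval `(a, b)` with `H ≤ b - a ≤ 1` in which the
proportion of `B` differs from `D` by more than `ε`. -/
def Uneven (B : Set ℝ) (D H ε : ℝ) (m : ℕ) : Set ℝ :=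
  {x | (m : ℝ) ≤ x ∧ x < m + 1 ∧ ∃ a b : ℝ, a < x ∧ x < b ∧ H ≤ b - a ∧ b - a ≤ 1 ∧
    ε * (b - a) < deviation B D a b}

/-- Points of attracting cycles contained in `(0,∞)`. -/
def AttractingPoint (y : ℝ) : Prop :=
  0 < y ∧ 0 < Function.minimalPeriod f y ∧ |deriv (f^[Function.minimalPeriod f y]) y| < 1

/-- The points `x > 0` whose orbit converges to the cycle of `y`. -/
def Basin (y : ℝ) : Set ℝ :=
  {x | 0 < x ∧ ∃ j : ℕ, Tendsto (fun k : ℕ => f^[k * Function.minimalPeriod f y + j] x) atTop (𝓝 y)}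

/-- The points `x` of `[m, m+1)` which lie in an interval `(a, b)` with `H ≤ b - a ≤ 1` in which the
proportion of the basin of some member of `Y` is less than `c` or larger than `1 - c`. -/
def Unmixed (Y : Finset ℝ) (H c : ℝ) (m : ℕ) : Set ℝ :=
  {x | (m : ℝ) ≤ x ∧ x < m + 1 ∧ ∃ y ∈ Y, ∃ a b : ℝ, a < x ∧ x < b ∧ H ≤ b - a ∧ b - a ≤ 1 ∧
    ((volume (Basin y ∩ Set.Ioo a b)).toReal < c * (b - a) ∨
      (1 - c) * (b - a) < (volume (Basin y ∩ Set.Ioo a b)).toReal)}

open Pool.Agent.U339.CH in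
theorem uneven_eq {B : Set ℝ} {D : ℝ} (h : HD B D) (H ε : ℝ) (m : ℕ) :
    Uneven B D H ε m = Pool.Agent.W40.Ch.cell m ∩ {x | bad B D H ε x} := by
  ext x
  constructor
  · rintro ⟨h1, h2, a, b, h3, h4, h5, h6, h7⟩
    refine ⟨⟨h1, h2⟩, a, b, h3, h4, h5, h6, ?_⟩
    rw [s_eq h.inv.1 D (by linarith : a ≤ b)]
    exact h7
  · rintro ⟨⟨h1, h2⟩, a, b, h3, h4, h5, h6, h7⟩
    rw [s_eq h.inv.1 D (by linarith : a ≤ b)] at h7
    exact ⟨h1, h2, a, b, h3, h4, h5, h6, h7⟩

open Pool.Agent.U339.CH in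
theorem uneven_le {B : Set ℝ} {D C A : ℝ} {K : ℕ} (h : HD B D) (hC : 1 ≤ C) (hK : A + 1 ≤ 2 * K / 3)
    (hit : ∀ m : ℕ, 1 ≤ m → volume.real (Pool.Agent.W40.Ch.cell m ∩
      {x | bad B D (C * (m : ℝ) ^ (-(2 * K / 3) : ℝ)) (C * t m) x}) ≤ C * (m : ℝ) ^ (-(1 / 6) : ℝ))
    {m : ℕ} (hm : 1 ≤ m) :
    (volume (Uneven B D ((m : ℝ) ^ (-A)) (C / (m : ℝ) ^ (1 / 2000 : ℝ)) m)).toReal ≤
      C / (m : ℝ) ^ (1 / 6 : ℝ) := by
  have hm1 : (1 : ℝ) ≤ m := by exact_mod_cast hm
  have hm0 : (0 : ℝ) < m := by linarith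
  rw [uneven_eq h]
  have e1 : C / (m : ℝ) ^ (1 / 2000 : ℝ) = C * t m := by
    unfold t
    rw [Real.rpow_neg hm0.le, div_eq_mul_inv]
  have e2 : C / (m : ℝ) ^ (1 / 6 : ℝ) = C * (m : ℝ) ^ (-(1 / 6) : ℝ) := by
    rw [Real.rpow_neg hm0.le, div_eq_mul_inv]
  rw [e1, e2]
  by_cases hmC : C ≤ m
  · refine le_trans ?_ (hit m hm)
    refine measureReal_mono ?_ (Pool.Agent.W40.Ch.inter_fin _ _)
    apply Set.inter_subset_inter_right
    intro x hx
    refine bad_mono ?_ le_rfl hx
    calc C * (m : ℝ) ^ (-(2 * K / 3) : ℝ) ≤ C * (m : ℝ) ^ (-A - 1) := by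
          apply mul_le_mul_of_nonneg_left _ (by linarith)
          exact Real.rpow_le_rpow_of_exponent_le hm1 (by linarith)
      _ ≤ m * (m : ℝ) ^ (-A - 1) := mul_le_mul_of_nonneg_right hmC (by positivity)
      _ = (m : ℝ) ^ (-A) := by
          nth_rewrite 1 [← Real.rpow_one (m : ℝ)]
          rw [← Real.rpow_add hm0]
          congr 1
          ring
  · rw [not_le] at hmC
    refine (real_le_one m _).trans ?_
    calc (1 : ℝ) = m * (m : ℝ) ^ (-1 : ℝ) := by
          rw [Real.rpow_neg_one]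
          field_simp
      _ ≤ C * (m : ℝ) ^ (-(1 / 6) : ℝ) := by
          apply mul_le_mul hmC.le _ (by positivity) (by linarith)
          exact Real.rpow_le_rpow_of_exponent_le hm1 (by norm_num)

open Pool.Agent.U339.CH in
/-- **The theorem.** -/
theorem result : ∃ C : ℝ → ℝ,
    -- 1, 2: invariant sets
    (∀ B : Set ℝ, Invariant B → ∃ D : ℝ, 0 ≤ D ∧ D ≤ 1 ∧ Fills B D ∧
      (∀ m : ℕ, 1 ≤ m → ∀ a b : ℝ, m ≤ a → a ≤ b → b ≤ m + 1 →
        deviation B D a b ≤ 7 * 10 ^ 7 / (m : ℝ) ^ (1 / 2000 : ℝ)) ∧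
      ∀ (A : ℝ) (m : ℕ), 1 ≤ m →
        (volume (Uneven B D ((m : ℝ) ^ (-A)) (C A / (m : ℝ) ^ (1 / 2000 : ℝ)) m)).toReal ≤
          C A / (m : ℝ) ^ (1 / 6 : ℝ)) ∧
    -- 3: basins
    (∀ y : ℝ, AttractingPoint y → Invariant (Basin y) ∧
      ∃ D : ℝ, 0 < D ∧ D < 1 ∧ Fills (Basin y) D) ∧
    ∀ Y : Finset ℝ, (∀ y ∈ Y, AttractingPoint y) → ∃ c : ℝ, 0 < c ∧
      ∀ A : ℝ, ∃ m₀ : ℕ, ∀ m : ℕ, m₀ ≤ m →
        (volume (Unmixed Y ((m : ℝ) ^ (-A)) c m)).toReal ≤
          Y.card * (C A / (m : ℝ) ^ (1 / 6 : ℝ)) := by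
  choose C₀ hC1 hC using iter
  set N : ℝ → ℕ := fun A => ⌈3 * (A + 1) / 2⌉₊ with hN
  have hNA : ∀ A : ℝ, A + 1 ≤ 2 * (N A : ℝ) / 3 := by
    intro A
    have := Nat.le_ceil (3 * (A + 1) / 2)
    rw [hN]
    dsimp only
    linarith
  have main : ∀ B : Set ℝ, Invariant B → ∃ D : ℝ, Fills B D ∧ HD B D := by
    intro B hB
    obtain ⟨D, hD, hr⟩ := Pool.Agent.TH237.CH.rate (B := B) hB
    exact ⟨D, hD, hB, ge_of_tendsto' hD (Pool.Agent.W40.Ch.bb_nonneg B),
      le_of_tendsto' hD (Pool.Agent.W40.Ch.bb_le_one B), hr⟩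
  have hb : ∀ y : ℝ, AttractingPoint y → Invariant (Basin y) ∧
      ∃ D : ℝ, 0 < D ∧ D < 1 ∧ Fills (Basin y) D := by
    intro y hy
    have hinv : Invariant (Basin y) := Pool.Agent.W40.Ch.basin_inv (y := y) hy.2.1
    obtain ⟨D, h0, -⟩ := main (Basin y) hinv
    exact ⟨hinv, D, Pool.Agent.W40.Ch.dens_pos hinv (Pool.Agent.W40.Ch.basin_pos hy) h0,
      lt_one (y := y) hy h0, h0⟩
  refine ⟨fun A => C₀ (N A), fun B hB => ?_, hb, fun Y hY => ?_⟩
  · obtain ⟨D, hD, h⟩ := main B hB
    refine ⟨D, h.d0, h.d1, hD, fun m hm a b h1 h2 h3 => ?_, fun A m hm => ?_⟩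
    · have e := cell_all h hm h1 h2 h3
      rw [s_eq h.inv.1 D h2] at e
      unfold t at e
      rw [Real.rpow_neg (Nat.cast_nonneg m), ← div_eq_mul_inv] at e
      exact e
    · exact uneven_le h (hC1 _) (hNA A) (hC (N A) B D h) hm
  · classical
    have hD : ∀ y : ℝ, ∃ D : ℝ, y ∈ Y → 0 < D ∧ D < 1 ∧ HD (Basin y) D := by
      intro y
      by_cases hy : y ∈ Y
      · obtain ⟨h1, D, h2, h2', h3⟩ := hb y (hY y hy)
        obtain ⟨D', h4, h5⟩ := main (Basin y) h1
        exact ⟨D', fun _ => by rw [← tendsto_nhds_unique h3 h4] at h5 ⊢; exact ⟨h2, h2', h5⟩⟩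
      · exact ⟨0, fun h => absurd h hy⟩
    choose D hD using hD
    obtain ⟨c, hc0, hc⟩ : ∃ c : ℝ, 0 < c ∧ ∀ y ∈ Y, 2 * c ≤ min (D y) (1 - D y) := by
      by_cases hne : Y.Nonempty
      · obtain ⟨y0, hy0, hmin⟩ := Y.exists_min_image (fun y => min (D y) (1 - D y)) hne
        have hpos : 0 < min (D y0) (1 - D y0) :=
          lt_min (hD y0 hy0).1 (by linarith [(hD y0 hy0).2.1])
        exact ⟨min (D y0) (1 - D y0) / 2, by linarith, fun y hy => by linarith [hmin y hy]⟩
      · rw [Finset.not_nonempty_iff_eq_empty] at hne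
        subst hne
        exact ⟨1, one_pos, fun y hy => absurd hy (Finset.notMem_empty y)⟩
    refine ⟨c, hc0, fun A => ?_⟩
    have hlim : Tendsto (fun m : ℕ => C₀ (N A) / (m : ℝ) ^ (1 / 2000 : ℝ)) atTop (𝓝 0) := by
      apply Tendsto.div_atTop tendsto_const_nhds
      exact (tendsto_rpow_atTop (by norm_num)).comp tendsto_natCast_atTop_atTop
    obtain ⟨m₁, hm₁⟩ := eventually_atTop.1 (hlim.eventually (gt_mem_nhds hc0))
    refine ⟨max 1 m₁, fun m hm => ?_⟩
    have hm1 : 1 ≤ m := (le_max_left _ _).trans hm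
    have hε := hm₁ m ((le_max_right _ _).trans hm)
    have hsub : Unmixed Y ((m : ℝ) ^ (-A)) c m ⊆ ⋃ y ∈ Y,
        Uneven (Basin y) (D y) ((m : ℝ) ^ (-A)) (C₀ (N A) / (m : ℝ) ^ (1 / 2000 : ℝ)) m := by
      rintro x ⟨h1, h2, y, hy, a, b, h3, h4, h5, h6, h7⟩
      refine Set.mem_biUnion hy ⟨h1, h2, a, b, h3, h4, h5, h6, ?_⟩
      have hL : 0 < b - a := by linarith
      unfold deviation
      have h8 : C₀ (N A) / (m : ℝ) ^ (1 / 2000 : ℝ) * (b - a) < c * (b - a) :=
        mul_lt_mul_of_pos_right hε hL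
      rw [lt_abs]
      rcases h7 with h7 | h7
      · right
        have h9 : 2 * c * (b - a) ≤ D y * (b - a) :=
          mul_le_mul_of_nonneg_right ((hc y hy).trans (min_le_left _ _)) hL.le
        linarith
      · left
        have h9 : 2 * c * (b - a) ≤ (1 - D y) * (b - a) :=
          mul_le_mul_of_nonneg_right ((hc y hy).trans (min_le_right _ _)) hL.le
        linarith
    have hfin : volume (⋃ y ∈ Y,
        Uneven (Basin y) (D y) ((m : ℝ) ^ (-A)) (C₀ (N A) / (m : ℝ) ^ (1 / 2000 : ℝ)) m) ≠ ⊤ := by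
      apply Pool.Agent.W40.Ch.fin_of_sub (a := (m : ℝ)) (b := m + 1)
      intro x hx
      simp only [Set.mem_iUnion] at hx
      obtain ⟨y, _, h1, h2, _⟩ := hx
      exact ⟨h1, h2.le⟩
    refine (measureReal_mono hsub hfin).trans ?_
    refine (measureReal_biUnion_finset_le Y _).trans ?_
    refine (Finset.sum_le_card_nsmul Y _ (C₀ (N A) / (m : ℝ) ^ (1 / 6 : ℝ)) fun y hy => ?_).trans ?_
    · exact uneven_le (hD y hy).2.2 (hC1 _) (hNA A) (hC (N A) _ _ (hD y hy).2.2) hm1
    · rw [nsmul_eq_mul]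

end Pool.Agent.Results.MP_a247fa_nt.BasinsAtAllScales
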