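import Pool.Agent.R630.WD.Crit
import Pool.Agent.Results.MP_071ec9_an.NeighboursExactlyKPrimes

set_option autoImplicit false

/-!
# The critical points of Chamberland's map above the products of exactly `k` primes

Let `k ≥ 2`. The critical points `c n` in `(n, n + 1/2)` of Chamberland's map above the integers `n` with
exactly `k` prime factors, all greater than a small power of the size, have all the properties `P` of
the list `Kind` (known fate; orbit tending to infinity; merging with the orbit of a given `c m`; the negations)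
with the frequency with which all odd integers have them, and the same holds for the critical points above
the affine images `2^e 3^i n + B`. The times at which the orbits arrive at the attracting cycles obey
the normal law, and the orbits of the critical points above `n` and above nearly all `n + b` follow each
other after at most `log n / log 4` steps.

A number of prime factors prescribed exactly is out of reach of the sieve (parity problem); the
starting results treat multiplicative sets and bilinear averages.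
-/

namespace Pool.Agent.Results.MP_a247fa_nt.CriticalPointsExactlyKPrimes

open Filter Topology
open ArithmeticFunction (cardFactors)

/-- Chamberland's map. -/
noncomputable def f (x : ℝ) : ℝ := x + 1 / 4 - (2 * x + 1) / 4 * Real.cos (Real.pi * x)

/-- Points of attracting cycles contained in `(0,∞)`. -/
def AttractingPoint (y : ℝ) : Prop :=
  0 < y ∧ 0 < Function.minimalPeriod f y ∧ |deriv (f^[Function.minimalPeriod f y]) y| < 1

/-- The orbit of `x` converges to the cycle of `y`. -/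
def Attracts (y x : ℝ) : Prop :=
  ∃ j : ℕ, Tendsto (fun k : ℕ => f^[k * Function.minimalPeriod f y + j] x) atTop (𝓝 y)

/-- `x` is attracted by the cycle `A₁ = {1, 2}` or by the cycle `A₂ = {a, f a}`, or its orbit ends in a
point of `[1.02, 1.05]` of period two. -/
def KnownFate (a x : ℝ) : Prop :=
  Attracts 1 x ∨ Attracts a x ∨ ∃ K, f^[K] x ∈ Set.Icc (1.02 : ℝ) 1.05 ∧ f^[K + 2] x = f^[K] x

/-- The orbits of `x` and `y` have, from some times on, the same integral parts. -/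
def Merge (x y : ℝ) : Prop := ∃ i j : ℕ, ∀ k : ℕ, ⌊f^[k + i] x⌋ = ⌊f^[k + j] y⌋

/-- `P` is one of the following properties of odd `n`, or the negation of one of them: `c n` is of known
fate; the orbit of `c n` tends to infinity; the orbit of `c n` merges with that of `c m` (`m` odd). -/
def Kind (a : ℝ) (c : ℕ → ℝ) (P : ℕ → Prop) : Prop :=
  ∃ P' : ℕ → Prop, (P' = (fun n => KnownFate a (c n)) ∨
    P' = (fun n => Tendsto (fun k : ℕ => f^[k] (c n)) atTop atTop) ∨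
    ∃ m : ℕ, m % 2 = 1 ∧ P' = fun n => Merge (c n) (c m)) ∧ (P = P' ∨ P = fun n => ¬ P' n)

/-- Among the odd positive integers the property `P` has natural density `δ`. -/
def OddDensity (P : ℕ → Prop) (δ : ℝ) : Prop :=
  Tendsto (fun N : ℕ => 2 * ({n : ℕ | n ≤ N ∧ n % 2 = 1 ∧ P n}.ncard : ℝ) / N) atTop (𝓝 δ)

/-- The orbit of `x` is below `2` for the first time at time `k`. -/
def Arrives (k : ℕ) (x : ℝ) : Prop := f^[k] x < 2 ∧ ∀ i < k, 2 ≤ f^[i] x

/-- `2 log n / log (4/3) + x * log 3 * √(2 log n / (log (4/3))^3)` -/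
noncomputable def bound (x : ℝ) (n : ℕ) : ℝ :=
  2 / Real.log (4 / 3) * Real.log n +
    x * (Real.log 3 * Real.sqrt (2 * Real.log n / Real.log (4 / 3) ^ 3))

/-- The distribution function of the standard normal law. -/
noncomputable def Phi (x : ℝ) : ℝ :=
  ProbabilityTheory.cdf (ProbabilityTheory.gaussianReal 0 1) x

/-- The affine image `2 ^ e * 3 ^ i * n + B`, as a natural number (`0` if it is negative). -/
def img (e i : ℕ) (B : ℤ) (n : ℕ) : ℕ := (2 ^ e * 3 ^ i * (n : ℤ) + B).toNat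

/-- For some `t` with `4 ^ t ≤ n` the orbits of `x` and `y` have the same integral parts from time
`t` on. -/
def Follow (n : ℕ) (x y : ℝ) : Prop := ∃ t : ℕ, 4 ^ t ≤ n ∧ ∀ k : ℕ, ⌊f^[k + t] x⌋ = ⌊f^[k + t] y⌋

/-- The integers up to `N` with exactly `k` prime factors (with multiplicity), all of them greater
than `N ^ θ`. -/
def E (k : ℕ) (θ : ℝ) (N : ℕ) : Set ℕ :=
  {n | 1 ≤ n ∧ n ≤ N ∧ cardFactors n = k ∧ ∀ p : ℕ, p.Prime → p ∣ n → (N : ℝ) ^ θ < p}

/-- The integers congruent to `r` modulo `Q` all of whose prime factors are in `S`. -/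
def W (S : Set ℕ) (Q r : ℕ) : Set ℕ := {n | n % Q = r % Q ∧ ∀ p : ℕ, p.Prime → p ∣ n → p ∈ S}

/-- THE FREQUENCIES of the pairs `(P, l)` in the family `F`: for all `k ≥ 2`, `Q ≥ 1` and `ε > 0`, all small
enough `θ > 0` and all `N ≥ N₀ (k, Q, ε, θ)`, uniformly for all pairs `(P, l)` in `F`, all sets `S` of primes
and all `r`: among the integers `n ≤ N` with exactly `k` prime factors, all greater than `N ^ θ` and
all in `S`, and `n ≡ r` modulo `Q`, the number of those with the property `P` is `l` times their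
number, up to `ε` times the number of all `n ≤ N` with exactly `k` prime factors, all greater than
`N ^ θ`. -/
def Frequencies (F : Set ((ℕ → Prop) × ℝ)) : Prop := ∀ k Q : ℕ, 2 ≤ k → 1 ≤ Q → ∀ ε : ℝ, 0 < ε →
  ∃ θ₀ : ℝ, 0 < θ₀ ∧ ∀ θ : ℝ, 0 < θ → θ ≤ θ₀ → ∃ N₀ : ℕ, ∀ N : ℕ, N₀ ≤ N →
    ∀ (S : Set ℕ) (r : ℕ), ∀ P ∈ F,
    |((E k θ N ∩ W S Q r ∩ {n | P.1 n}).ncard : ℝ) - P.2 * (E k θ N ∩ W S Q r).ncard| ≤
      ε * (E k θ N).ncard

open Pool.Agent.R630.WD.Cr (Fol fol_floor zT kind_set odd_density)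
open Pool.Agent.Results.MP_071ec9_an.NeighboursInSemigroups (aff f₀_int together_iff visits_iff Together)
open Pool.Agent.Results.MP_071ec9_an.WanderingInSemigroups (Visits)

/-- the integers of `E` are odd, for large `N` -/
theorem E_odd {k : ℕ} {θ : ℝ} (hθ : 0 < θ) : ∃ N0 : ℕ, ∀ N : ℕ, N0 ≤ N → ∀ n ∈ E k θ N, n % 2 = 1 := by
  have h1 : Tendsto (fun N : ℕ => (N : ℝ) ^ θ) atTop atTop :=
    (tendsto_rpow_atTop hθ).comp tendsto_natCast_atTop_atTop
  obtain ⟨N0, h2⟩ := eventually_atTop.1 (h1.eventually_ge_atTop 2)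
  refine ⟨N0, fun N hN n hn => ?_⟩
  by_contra hcon
  have h3 : 2 ∣ n := by omega
  have h4 := hn.2.2.2 2 Nat.prime_two h3
  have h5 := h2 N hN
  have h6 : ((2 : ℕ) : ℝ) = 2 := by norm_num
  rw [h6] at h4
  linarith

/-- the transfer of the frequencies -/
theorem freq_trans {G : Set (Set ℤ × ℝ)}
    (h : Pool.Agent.Results.MP_071ec9_an.NeighboursExactlyKPrimes.Frequencies 1 G)
    {F : Set ((ℕ → Prop) × ℝ)} (n1 : ℕ)
    (hF : ∀ P ∈ F, ∃ A ∈ G, P.2 = A.2 ∧ ∀ n : ℕ, n1 ≤ n → n % 2 = 1 → (P.1 n ↔ (1 : ℤ) * (n : ℤ) ∈ A.1)) :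
    Frequencies F := by
  intro k Q hk hQ ε hε
  obtain ⟨θ0, h1, h2⟩ := h k Q hk hQ ε hε
  refine ⟨θ0, h1, fun θ a1 a2 => ?_⟩
  obtain ⟨N0, h3⟩ := h2 θ a1 a2
  obtain ⟨N2, h7⟩ := Pool.Agent.U596.KF.E_large hk a1 n1
  obtain ⟨N3, h8⟩ := E_odd (k := k) a1
  refine ⟨N0 + N2 + N3, fun N hN S r P hP => ?_⟩
  obtain ⟨A, hA, e1, e2⟩ := hF P hP
  have h9 := h3 N (by omega) S r A hA
  have h10 := h7 N (by omega)
  have h11 := h8 N (by omega)
  have e3 : E k θ N ∩ W S Q r ∩ {n | P.1 n} = E k θ N ∩ W S Q r ∩ {n | (1 : ℤ) * (n : ℤ) ∈ A.1} := by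
    ext n
    simp only [Set.mem_inter_iff, Set.mem_setOf_eq]
    constructor
    · rintro ⟨⟨g1, g2⟩, g3⟩
      exact ⟨⟨g1, g2⟩, (e2 n (h10 n g1) (h11 n g1)).1 g3⟩
    · rintro ⟨⟨g1, g2⟩, g3⟩
      exact ⟨⟨g1, g2⟩, (e2 n (h10 n g1) (h11 n g1)).2 g3⟩
  rw [e3, e1]
  exact h9

/-- the affine image of a large odd integer -/
theorem img_cast {e i : ℕ} {B : ℤ} (hB : ((2 : ℤ) ^ e * 3 ^ i + B) % 2 = 1) {n : ℕ}
    (hn : B.natAbs + 1 ≤ n) (ho : n % 2 = 1) :
    ((img e i B n : ℕ) : ℤ) = aff e i B (1 * (n : ℤ)) ∧ img e i B n % 2 = 1 := by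
  have h1 : (n : ℤ) ≤ 2 ^ e * 3 ^ i * n := by
    have h2 : (1 : ℤ) ≤ 2 ^ e * 3 ^ i := one_le_mul_of_one_le_of_one_le
      (one_le_pow₀ (by norm_num)) (one_le_pow₀ (by norm_num))
    have h3 : (0 : ℤ) ≤ n := Int.natCast_nonneg n
    nlinarith
  have h4 : 0 ≤ 2 ^ e * 3 ^ i * (n : ℤ) + B := by omega
  have h5 : ((img e i B n : ℕ) : ℤ) = 2 ^ e * 3 ^ i * (n : ℤ) + B := by
    unfold img
    exact Int.toNat_of_nonneg h4
  refine ⟨by rw [h5, one_mul]; rfl, ?_⟩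
  have h6 : (2 ^ e * 3 ^ i * (n : ℤ) + B) % 2 = 1 := by
    have h7 : (n : ℤ) = 2 * ((n : ℤ) / 2) + 1 := by omega
    have h8 : 2 ^ e * 3 ^ i * (n : ℤ) + B = ((2 : ℤ) ^ e * 3 ^ i + B) + 2 * (2 ^ e * 3 ^ i * ((n : ℤ) / 2)) := by
      conv_lhs => rw [h7]
      ring
    rw [h8]
    omega
  omega

/-- a nonpositive integer has a nonpositive orbit -/
theorem T_nonpos {x : ℤ} (hx : x ≤ 0) (t : ℕ) : Pool.Agent.H723R2.LSW.T^[t] x ≤ 0 := by
  induction t with
  | zero => exact hx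
  | succ t ih =>
    rw [Function.iterate_succ_apply']
    generalize Pool.Agent.H723R2.LSW.T^[t] x = y at ih
    unfold Pool.Agent.H723R2.LSW.T
    split_ifs <;> omega

/-- following orbits, from the integers -/
theorem follow_of {c : ℕ → ℝ} (hfol : ∀ n : ℕ, n % 2 = 1 → Fol n (c n)) {n : ℕ} {b : ℤ}
    (hn : 1 ≤ n) (ho : n % 2 = 1) (hb : b % 2 = 0)
    (h : Together 0 (1 * (n : ℤ)) (1 * (n : ℤ) + b)) :
    1 ≤ ((n : ℤ) + b).toNat ∧ Follow n (c n) (c ((n : ℤ) + b).toNat) := by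
  rw [together_iff (Or.inl rfl)] at h
  obtain ⟨t, h1, h2⟩ := h
  rw [one_mul, Nat.add_zero] at h2
  have h3 : 1 ≤ (n : ℤ) + b := by
    by_contra hcon
    have h4 := T_nonpos (x := (n : ℤ) + b) (by omega) t
    rw [h2, zT] at h4
    have h5 := Pool.Agent.R630.WD.Cr.T_iter_pos hn t
    omega
  obtain ⟨m, hm⟩ : ∃ m : ℕ, (m : ℤ) = (n : ℤ) + b := ⟨((n : ℤ) + b).toNat, Int.toNat_of_nonneg (by omega)⟩
  have hm1 : 1 ≤ m := by omega
  have hmo : m % 2 = 1 := by omega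
  rw [← hm] at h2 ⊢
  rw [zT, zT] at h2
  have h6 : Pool.Agent.R630.WD.Cr.T^[t] m = Pool.Agent.R630.WD.Cr.T^[t] n := by exact_mod_cast h2
  rw [Int.toNat_natCast]
  refine ⟨hm1, t, h1, fun k => ?_⟩
  have e1 := fol_floor hn (hfol n ho) (k + t)
  have e2 := fol_floor hm1 (hfol m hmo) (k + t)
  have e3 : ⌊f^[k + t] (c n)⌋ = (Pool.Agent.R630.WD.Cr.T^[k + t] n : ℕ) := e1
  have e4 : ⌊f^[k + t] (c m)⌋ = (Pool.Agent.R630.WD.Cr.T^[k + t] m : ℕ) := e2
  rw [e3, e4, Function.iterate_add_apply, Function.iterate_add_apply, h6]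

/-- arrival below `2` -/
theorem arrives_iff {n : ℕ} (hn : 1 ≤ n) {x : ℝ} (h : Fol n x) (k : ℕ) :
    Arrives k x ↔ Visits 1 k (n : ℤ) := by
  have key : ∀ j : ℕ, f^[j] x < 2 ↔ Pool.Agent.R630.WD.Cr.T^[j] n = 1 := by
    intro j
    have h1 := Pool.Agent.R630.WD.Cr.T_iter_pos hn j
    have h2 := h j
    constructor
    · intro h3
      have h4 : ((Pool.Agent.R630.WD.Cr.T^[j] n : ℕ) : ℝ) < 2 := lt_of_le_of_lt h2.1 h3
      have h5 : Pool.Agent.R630.WD.Cr.T^[j] n < 2 := by exact_mod_cast h4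
      omega
    · intro h3
      rw [h3] at h2
      have h4 := h2.2
      norm_num at h4
      have h5 : f^[j] x ≤ 1 + 5 / 18 := by
        show Pool.Agent.R630.WD.Cr.f^[j] x ≤ 1 + 5 / 18
        linarith
      linarith
  rw [visits_iff]
  show (f^[k] x < 2 ∧ ∀ i < k, 2 ≤ f^[i] x) ↔ (Pool.Agent.H723R2.LSW.T^[k] (n : ℤ) = 1 ∧
    ∀ i < k, Pool.Agent.H723R2.LSW.T^[i] (n : ℤ) ≠ 1)
  rw [key, zT]
  refine and_congr (by exact_mod_cast Iff.rfl) (forall₂_congr fun i _ => ?_)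
  rw [← not_lt, key, zT]
  exact not_congr (by exact_mod_cast Iff.rfl)

theorem rep_one : Pool.Agent.Results.MP_071ec9_an.WanderingInSemigroups.IsCycleRep 1 1 := by
  have h1 : ∀ j : ℕ, Pool.Agent.Results.MP_071ec9_an.WanderingInSemigroups.f₀^[j] ((1 : ℤ) : ℂ) =
      ((((Pool.Agent.R630.WD.Cr.T^[j] 1 : ℕ) : ℤ)) : ℂ) := by
    intro j
    apply Pool.Agent.H723R2.LSW.cast_iter.2
    exact zT j 1
  refine ⟨by norm_num, ⟨2, by norm_num, ?_⟩, fun j b hb => ?_⟩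
  · rw [h1 2]
    have : Pool.Agent.R630.WD.Cr.T^[2] 1 = 1 := rfl
    rw [this]
    norm_num
  · rw [h1 j] at hb
    have h2 : (((Pool.Agent.R630.WD.Cr.T^[j] 1 : ℕ) : ℤ)) = b := by exact_mod_cast hb
    have h3 := Pool.Agent.R630.WD.Cr.T_iter_pos (n := 1) le_rfl j
    omega

/-- THE CRITICAL POINTS OF CHAMBERLAND'S MAP ABOVE THE PRODUCTS OF EXACTLY `k` PRIMES.
For odd `n` let `c n` be the critical point of `f` in `(n, n + 1/2)`.
(0) Each property `P` of `Kind` has a density `δ` in the odd positive integers; `δ > 0` if and only if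
some `c n` has the property `P`.
(1) For `e, i ≥ 0` and `B` with `2^e 3^i + B` odd, in the sense of `Frequencies` (along the integers `n` with
exactly `k ≥ 2` prime factors, all greater than `N ^ θ`, from arbitrary sets of primes, in residue
classes): the critical points `c (2^e 3^i n + B)` have the property `P` with frequency `δ`, uniformly in
the properties `P` of `Kind`.
(2) There is `β > 0`, the density of the odd `n` for which `c n` is of known fate, such that for all `e`, `i`,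
`B` as in (1) the orbit of `c (2^e 3^i n + B)` is below `2` for the first time at a time `t + e` with
`t ≡ b` modulo `q` and `t ≤ bound x n` with frequency `β Φ(x) / q`, uniformly in the real number `x`;
and with `|t - 2 log n / log (4/3)| ≤ η log n` with frequency `β`.
(3) For `k ≥ 2` and `ε > 0` there is `ϑ > 0` such that for all small `θ` and all large `N`, for every even `b`
with `|b| ≤ N ^ ϑ`: for all but at most `ε #E` of the `n` in `E = E k θ N` the orbits of `c n` and of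
`c (n + b)` have the same integral parts from a time `t` on, `4 ^ t ≤ n`.
(4) If one critical point `c m` has the property `P` of `Kind` (for example, if it is not of known fate,
or if its orbit tends to infinity), then for all `k ≥ 2` and `e`, `i`, `B` as in (1) at least
`κ N / log N` of the `n ≤ N` with exactly `k` prime factors are such that `c (2^e 3^i n + B)` has the
property `P`, for all large `N`, where `κ > 0`. -/
theorem result : ∃ (a : ℝ) (c : ℕ → ℝ),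
    (a ∈ Set.Icc (1.19 : ℝ) 1.196 ∧ f (f a) = a ∧
      ∀ y, y = 1 ∨ y = 2 ∨ y = a ∨ y = f a → AttractingPoint y) ∧
    (∀ n : ℕ, n % 2 = 1 → (n : ℝ) < c n ∧ c n < n + 1 / 2 ∧ deriv f (c n) = 0 ∧
      ∀ x : ℝ, (n : ℝ) < x → x < n + 1 / 2 → deriv f x = 0 → x = c n) ∧
    (∀ P : ℕ → Prop, Kind a c P → ∃ δ : ℝ, 0 ≤ δ ∧ δ ≤ 1 ∧ OddDensity P δ ∧
      (0 < δ ↔ ∃ n : ℕ, n % 2 = 1 ∧ P n)) ∧
    (∀ (e i : ℕ) (B : ℤ), ((2 : ℤ) ^ e * 3 ^ i + B) % 2 = 1 →
      Frequencies {F | ∃ (P : ℕ → Prop) (δ : ℝ), Kind a c P ∧ OddDensity P δ ∧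
        F = ((fun n => P (img e i B n)), δ)}) ∧
    (∃ β : ℝ, 0 < β ∧ OddDensity (fun n => KnownFate a (c n)) β ∧
      ∀ (e i : ℕ) (B : ℤ), ((2 : ℤ) ^ e * 3 ^ i + B) % 2 = 1 →
        (∀ (q : ℕ) (b : ℤ), 1 ≤ q → Frequencies {F | ∃ x : ℝ, F = ((fun n => ∃ t : ℕ,
          Arrives (t + e) (c (img e i B n)) ∧ (t : ℝ) ≤ bound x n ∧ (t : ℤ) ≡ b [ZMOD q]), β * Phi x / q)}) ∧
        (∀ η : ℝ, 0 < η → Frequencies {((fun n => ∃ t : ℕ, Arrives (t + e) (c (img e i B n)) ∧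
          |(t : ℝ) - 2 / Real.log (4 / 3) * Real.log n| ≤ η * Real.log n), β)})) ∧
    (∀ k : ℕ, 2 ≤ k → ∀ ε : ℝ, 0 < ε → ∃ ϑ θ₀ : ℝ, 0 < ϑ ∧ 0 < θ₀ ∧ ∀ θ : ℝ, 0 < θ → θ ≤ θ₀ →
      ∃ N₀ : ℕ, ∀ N : ℕ, N₀ ≤ N → ∀ b : ℤ, b % 2 = 0 → |(b : ℝ)| ≤ (N : ℝ) ^ ϑ →
        ((E k θ N ∩ {n | ¬ (1 ≤ ((n : ℤ) + b).toNat ∧ Follow n (c n) (c ((n : ℤ) + b).toNat))}).ncard : ℝ) ≤
          ε * (E k θ N).ncard) ∧
    (∀ P : ℕ → Prop, Kind a c P → (∃ n : ℕ, n % 2 = 1 ∧ P n) → ∀ k : ℕ, 2 ≤ k → ∀ (e i : ℕ) (B : ℤ),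
      ((2 : ℤ) ^ e * 3 ^ i + B) % 2 = 1 → ∃ κ : ℝ, 0 < κ ∧ ∃ N₀ : ℕ, ∀ N : ℕ, N₀ ≤ N →
        κ * (N / Real.log N) ≤
          {n : ℕ | 1 ≤ n ∧ n ≤ N ∧ cardFactors n = k ∧ P (img e i B n)}.ncard) := by
  obtain ⟨a, c, hA, hC, hfol, hkf⟩ := Pool.Agent.R630.WD.Cr.crit
  obtain ⟨w, β, ⟨-, -, hβ0⟩, hmain, hk2⟩ :=
    Pool.Agent.Results.MP_071ec9_an.NeighboursExactlyKPrimes.result 1 (Or.inl rfl)
  have hset : ∀ P : ℕ → Prop, Kind a c P → ∃ S : Set ℤ,
      (∀ x : ℤ, x ∈ S ↔ Pool.Agent.H723R2.LSW.T x ∈ S) ∧ ∀ n : ℕ, n % 2 = 1 → (P n ↔ (n : ℤ) ∈ S) :=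
    fun P hP => kind_set (a := a) hfol hkf hP
  have p0 : ∀ P : ℕ → Prop, Kind a c P → ∃ δ : ℝ, 0 ≤ δ ∧ δ ≤ 1 ∧ OddDensity P δ ∧
      (0 < δ ↔ ∃ n : ℕ, n % 2 = 1 ∧ P n) := by
    intro P hP
    obtain ⟨S, h1, h2⟩ := hset P hP
    obtain ⟨δ, h3, h4, h5⟩ := Pool.Agent.H499R2.ND.dens_side odd_one
      isCoprime_one_left (s := 1) (Or.inl rfl) (S := S) h1
    have h6 : OddDensity P δ := odd_density h1 (Pool.Agent.H499R2.ND.HD_ncard (Or.inl rfl) h5) h2
    refine ⟨δ, h3, h4, h6, ?_, ?_⟩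
    · intro hpos
      by_contra hno
      have h7 : OddDensity P 0 := by
        unfold OddDensity
        refine (tendsto_const_nhds (x := (0 : ℝ))).congr fun N => ?_
        have h8 : {n : ℕ | n ≤ N ∧ n % 2 = 1 ∧ P n} = ∅ := by
          ext n
          simp only [Set.mem_setOf_eq, Set.mem_empty_iff_false, iff_false]
          rintro ⟨_, a2, a3⟩
          exact hno ⟨n, a2, a3⟩
        rw [h8]
        simp
      exact hpos.ne' (tendsto_nhds_unique h6 h7)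
    · rintro ⟨n, hn, hPn⟩
      exact Pool.Agent.H499R2.ND.one_pos (s := 1) (Or.inl rfl) h1 ((h2 n hn).1 hPn) (by omega) h5
  have hset' : ∀ (P : ℕ → Prop) (δ : ℝ), Kind a c P → OddDensity P δ → ∃ S : Set ℤ,
      (∀ x : ℤ, x ∈ S ↔ Pool.Agent.H723R2.LSW.T x ∈ S) ∧
      Pool.Agent.Results.MP_071ec9_an.WanderingInSemigroups.HasDensity 1 S δ ∧
      ∀ n : ℕ, n % 2 = 1 → (P n ↔ (n : ℤ) ∈ S) := by
    intro P δ hP hδ
    obtain ⟨S, h1, h2⟩ := hset P hP
    obtain ⟨δ', _, _, h5⟩ := Pool.Agent.H499R2.ND.dens_side odd_one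
      isCoprime_one_left (s := 1) (Or.inl rfl) (S := S) h1
    have h6 := Pool.Agent.H499R2.ND.HD_ncard (Or.inl rfl) h5
    have h7 : OddDensity P δ' := odd_density h1 h6 h2
    have h8 : δ' = δ := tendsto_nhds_unique h7 hδ
    subst h8
    exact ⟨S, h1, h6, h2⟩
  have p1 : ∀ (e i : ℕ) (B : ℤ), ((2 : ℤ) ^ e * 3 ^ i + B) % 2 = 1 →
      Frequencies {F | ∃ (P : ℕ → Prop) (δ : ℝ), Kind a c P ∧ OddDensity P δ ∧
        F = ((fun n => P (img e i B n)), δ)} := by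
    intro e i B hB
    refine freq_trans (hmain e i B).2.1 (B.natAbs + 1) ?_
    rintro F ⟨P, δ, hP, hδ, rfl⟩
    obtain ⟨S, h1, h2, h3⟩ := hset' P δ hP hδ
    refine ⟨({n | aff e i B n ∈ S}, δ), ⟨S, δ, fun n m hnm => ?_, h2, rfl⟩, rfl, fun n hn ho => ?_⟩
    · rw [f₀_int] at hnm
      have h4 : Pool.Agent.H723R2.LSW.T n = m := by exact_mod_cast hnm
      rw [← h4]
      exact h1 n
    · obtain ⟨h4, h5⟩ := img_cast hB hn ho
      show P (img e i B n) ↔ aff e i B (1 * (n : ℤ)) ∈ S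
      rw [h3 _ h5, h4]
  -- the density of the known fates
  have hKk : Kind a c (fun n => KnownFate a (c n)) := ⟨_, Or.inl rfl, Or.inl rfl⟩
  have hβ : 0 < β 1 ∧ OddDensity (fun n => KnownFate a (c n)) (β 1) := by
    obtain ⟨h1, h2⟩ := hβ0 1 (by norm_num)
    refine ⟨h1, ?_⟩
    have e : {n : ℤ | ∃ i j : ℕ, Pool.Agent.Results.MP_071ec9_an.WanderingInSemigroups.f₀^[i] (n : ℂ) =
        Pool.Agent.Results.MP_071ec9_an.WanderingInSemigroups.f₀^[j] ((1 : ℤ) : ℂ)} =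
          {n | Pool.Agent.H723R2.LSW.Mer n 1} := by
      ext n
      show (∃ i j : ℕ, Pool.Agent.H723R2.LSW.f₀^[i] (n : ℂ) = Pool.Agent.H723R2.LSW.f₀^[j] ((1 : ℤ) : ℂ)) ↔
        Pool.Agent.H723R2.LSW.Mer n 1
      constructor
      · rintro ⟨i, j, h⟩
        rw [Pool.Agent.H723R2.LSW.f₀_iter, Pool.Agent.H723R2.LSW.f₀_iter] at h
        exact ⟨i, j, by exact_mod_cast h⟩
      · rintro ⟨i, j, h⟩
        exact ⟨i, j, by rw [Pool.Agent.H723R2.LSW.f₀_iter, Pool.Agent.H723R2.LSW.f₀_iter, h]⟩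
    rw [e] at h2
    refine odd_density (S := {n | Pool.Agent.H723R2.LSW.Mer n 1})
      (fun x => Pool.Agent.R630.WD.Cr.mer_T 1 x) h2 (fun n hn => ?_)
    show Pool.Agent.R630.WD.Cr.KnownFate a (c n) ↔ Pool.Agent.H723R2.LSW.Mer (n : ℤ) 1
    rw [hkf n hn]
    exact (Pool.Agent.R630.WD.Cr.reach_mer (m := 1) (p := 2) (by norm_num) rfl).symm
  refine ⟨a, c, hA, hC, p0, p1, ⟨β 1, hβ.1, hβ.2, fun e i B hB => ⟨fun q b hq => ?_, fun η hη => ?_⟩⟩,
    fun k hk ε hε => ?_, fun P hP hocc k hk e i B hB => ?_⟩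
  · refine freq_trans (((hmain e i B).2.2.2.2 1 rep_one).1 q b hq) (B.natAbs + 1) ?_
    rintro F ⟨x, rfl⟩
    refine ⟨_, ⟨x, rfl⟩, rfl, fun n hn ho => ?_⟩
    obtain ⟨h4, h5⟩ := img_cast hB hn ho
    show (∃ t : ℕ, Arrives (t + e) (c (img e i B n)) ∧ (t : ℝ) ≤ bound x n ∧ (t : ℤ) ≡ b [ZMOD q]) ↔
      ∃ t : ℕ, Visits 1 (t + e) (aff e i B (1 * (n : ℤ))) ∧
        (t : ℝ) ≤ Pool.Agent.Results.MP_071ec9_an.WanderingInSemigroups.bound x (1 * (n : ℤ)) ∧
        (t : ℤ) ≡ b [ZMOD q]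
    refine exists_congr fun t => ?_
    rw [arrives_iff (by omega) (hfol _ h5), h4]
    have e1 : Pool.Agent.Results.MP_071ec9_an.WanderingInSemigroups.bound x (1 * (n : ℤ)) = bound x n := by
      unfold Pool.Agent.Results.MP_071ec9_an.WanderingInSemigroups.bound bound
      rw [one_mul]
      have e2 : |(((n : ℤ)) : ℝ)| = (n : ℝ) := by
        rw [abs_of_nonneg (by positivity)]
        norm_cast
      rw [e2]
    rw [e1]
  · refine freq_trans (((hmain e i B).2.2.2.2 1 rep_one).2 η hη) (B.natAbs + 1) ?_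
    intro F hF
    rw [Set.mem_singleton_iff] at hF
    subst hF
    refine ⟨_, rfl, rfl, fun n hn ho => ?_⟩
    obtain ⟨h4, h5⟩ := img_cast hB hn ho
    show (∃ t : ℕ, Arrives (t + e) (c (img e i B n)) ∧
        |(t : ℝ) - 2 / Real.log (4 / 3) * Real.log n| ≤ η * Real.log n) ↔
      ∃ t : ℕ, Visits 1 (t + e) (aff e i B (1 * (n : ℤ))) ∧
        |(t : ℝ) - 2 / Real.log (4 / 3) * Real.log (|(((1 * (n : ℤ) : ℤ)) : ℝ)|)| ≤
          η * Real.log |(((1 * (n : ℤ) : ℤ)) : ℝ)|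
    refine exists_congr fun t => ?_
    rw [arrives_iff (by omega) (hfol _ h5), h4]
    have e2 : |(((1 * (n : ℤ) : ℤ)) : ℝ)| = (n : ℝ) := by
      rw [one_mul, abs_of_nonneg (by positivity)]
      norm_cast
    rw [e2]
  · obtain ⟨ϑ, θ1, h1, h2, h3⟩ := (hk2 k hk).1 ε hε
    refine ⟨ϑ, θ1, h1, h2, fun θ c1 c2 => ?_⟩
    obtain ⟨N0, h4⟩ := h3 θ c1 c2
    obtain ⟨N3, h8⟩ := E_odd (k := k) c1
    refine ⟨N0 + N3, fun N hN b hb hbN => ?_⟩
    refine le_trans ?_ ((h4 N (by omega)).1 b hbN)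
    have : (E k θ N ∩ {n | ¬ (1 ≤ ((n : ℤ) + b).toNat ∧ Follow n (c n) (c ((n : ℤ) + b).toNat))}).ncard ≤
        (Pool.Agent.Results.MP_071ec9_an.NeighboursExactlyKPrimes.E k θ N ∩
          {n | ¬ Together 0 (1 * n) (1 * n + b)}).ncard := by
      apply Set.ncard_le_ncard
      · rintro n ⟨g1, g2⟩
        exact ⟨g1, fun hC' => g2 (follow_of hfol g1.1 (h8 N (by omega) n g1) hb hC')⟩
      · exact (Pool.Agent.U596.KF.E_fin k θ N).inter_of_left _
    exact_mod_cast this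
  · obtain ⟨δ, hδ0, hδ1, hδ, hpos⟩ := p0 P hP
    have hδp : 0 < δ := hpos.2 hocc
    obtain ⟨κ, hκ, θ0, hθ0, hlow⟩ := Pool.Agent.U596.KF.E_low hk
    obtain ⟨θ1, hθ1, hfreq⟩ := p1 e i B hB k 1 hk le_rfl (δ / 2) (by positivity)
    obtain ⟨N0, hN0⟩ := hlow (min θ0 θ1) (lt_min hθ0 hθ1) (min_le_left _ _)
    obtain ⟨N1, hN1⟩ := hfreq (min θ0 θ1) (lt_min hθ0 hθ1) (min_le_right _ _)
    generalize min θ0 θ1 = θ at hN0 hN1
    refine ⟨δ / 2 * κ, by positivity, N0 + N1, fun N hN => ?_⟩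
    have g6 : κ * (N / Real.log N) ≤ (E k θ N).ncard := hN0 N (by omega)
    have g7 := hN1 N (by omega) Set.univ 0 _ ⟨P, δ, hP, hδ, rfl⟩
    have e1 : E k θ N ∩ W Set.univ 1 0 = E k θ N := by
      ext n
      simp only [Set.mem_inter_iff, W, Set.mem_setOf_eq, Set.mem_univ, implies_true, and_true, Nat.mod_one]
    rw [e1, abs_le] at g7
    have g8 : ((E k θ N ∩ {n | P (img e i B n)}).ncard : ℝ) ≤
        ({n : ℕ | 1 ≤ n ∧ n ≤ N ∧ cardFactors n = k ∧ P (img e i B n)}.ncard : ℝ) := by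
      have : (E k θ N ∩ {n | P (img e i B n)}).ncard ≤
          {n : ℕ | 1 ≤ n ∧ n ≤ N ∧ cardFactors n = k ∧ P (img e i B n)}.ncard := by
        apply Set.ncard_le_ncard
        · rintro n ⟨⟨a1, a2, a3, -⟩, a4⟩
          exact ⟨a1, a2, a3, a4⟩
        · exact (Set.finite_Icc 1 N).subset fun n hn => ⟨hn.1, hn.2.1⟩
      exact_mod_cast this
    have g12 : δ / 2 * (κ * (N / Real.log N)) ≤ δ / 2 * (E k θ N).ncard :=
      mul_le_mul_of_nonneg_left g6 (by linarith)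
    have g13 := g7.1
    simp only at g13
    linarith

end Pool.Agent.Results.MP_a247fa_nt.CriticalPointsExactlyKPrimes
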